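import Pool.Agent.Helper43.UN.GoalsG
import Pool.Agent.Helper87.EW.Tri

/-! Packet TrN of the project UN: from the game to the region (adapted from
`Pool/Agent/Helper49/UW/TriU.lean`, any region instead of `triZ`). -/

set_option autoImplicit false

namespace Pool.Agent.Helper55.UN

open Finset
open Pool.Agent.Helper43.UN
open Pool.Agent.Helper18.EW Pool.Agent.Helper18.UW
open Pool.Agent.Helper43.Hw (T na va lz Play T_choose)
open Pool.Agent.Helper43.Gm (st mv nn Pri)
open Pool.Agent.Lead.Sh
open Pool.Agent.Helper18.SG (GoalA2)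
open Pool.Agent.Helper87.EW (rows_subset)

theorem sum_combu (m ms : ℕ → ℕ) (R N K τ s : ℕ) (κ x e P : ℕ → ℕ) (z : ℕ) :
    ∑ c ∈ range (N + K), combu m ms R N τ s κ x e P c z =
      uz m R N κ x z + uV R K τ s ms e P z := by
  rw [Finset.sum_range_add]
  unfold uz uV
  congr 1
  · refine sum_congr rfl fun c hc => ?_
    rw [mem_range] at hc
    unfold combu
    rw [if_pos hc]
  · refine sum_congr rfl fun i _ => ?_
    unfold combu
    rw [if_neg (by omega), Nat.add_sub_cancel_left]

theorem goalTrN : GoalTrN := by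
  intro hA2 hPG hU1 hUG D m ms μ δ R N K τ s E ℓ κ x e P hD hR hm hP hG hpa hk1 hk2
  obtain ⟨π, ε, hpri⟩ := hPG m ms μ δ R N K τ s E κ x e P hm hR hP hG hpa hk1 hk2
  have hrev := Pool.Agent.Helper43.Gm.PkF2.pri_rev _ _ _ _ _ _ hpri
  have f2 : ∀ x ∈ D, x.2 < R := hD.row
  constructor
  · intro hle
    refine hA2 R _ (N + K) _ _ _ _ f2 hrev ?_
    intro y hy
    rw [hD.card y hy, sum_combu]
    have := hle (R - 1 - y) (by omega)
    omega
  · intro hle
    obtain ⟨D2, hD2, c1, c2, c3⟩ := rows_subset R D
      (fun y => ∑ c ∈ range (N + K), combu m ms R N τ s κ x e P c (R - 1 - y)) (by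
        intro y hy
        rw [hD.card y hy, sum_combu]
        have := hle (R - 1 - y) (by omega)
        omega)
    have h1 : Inj D2 (rows (mu m ms N) (range (N + K))) := by
      refine hA2 R _ (N + K) _ _ _ _ c2 hrev ?_
      intro y hy
      exact (c1 y hy).le
    have hcard : (rows (mu m ms N) (range (N + K))).card = D2.card := by
      have e1 : ∑ y ∈ range R,
          ∑ c ∈ range (N + K), combu m ms R N τ s κ x e P c (R - 1 - y) =
          ∑ y ∈ range R, ∑ c ∈ range (N + K), combu m ms R N τ s κ x e P c y :=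
        sum_range_reflect (fun y => ∑ c ∈ range (N + K), combu m ms R N τ s κ x e P c y) R
      have e2 := (hU1 m R N κ x hm hR hP).2.2.2.2.2.2.2.2
      have e3 := (hUG μ δ R K τ s E ms e P hG).1.2.2.2
      rw [c3, card_rows, e1]
      simp only [sum_combu]
      rw [sum_add_distrib, e2, e3, Finset.sum_range_add]
      congr 1
      · refine sum_congr rfl fun c hc => ?_
        rw [mem_range] at hc
        rw [T_choose]
        unfold mu
        rw [if_pos hc]
      · refine sum_congr rfl fun i _ => ?_
        rw [T_choose]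
        unfold mu
        rw [if_neg (by omega), Nat.add_sub_cancel_left]
    obtain ⟨Q, hQ⟩ := h1
    have hInd : Ind D2 (rows (mu m ms N) (range (N + K))) := ⟨Q, hQ.ind hcard⟩
    exact hInd.mono hD2 subset_rfl

end Pool.Agent.Helper55.UN
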